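import Pool.Agent.H31.CN.FinB

/-!
# Central values of the Artin L-functions of Hilbert class fields of imaginary quadratic fields

Let `-D` run over the odd fundamental discriminants with `3 < D ≤ X`, let `K_D = ℚ(√-D)`, let `L_D`
be the Hilbert class field of `K_D` and `G_D` the Galois group of `L_D/ℚ`. On average over `D`, at
least `19/27 = 70.37 %` (minus `ε`) of all the irreducible characters `χ` of `G_D` are orthogonal
of degree two and satisfy `L(1/2, χ) ≠ 0` (in particular their Artin `L`-functions are entire). The
theorem is unconditional.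

Idea. The orthogonal characters of degree two are induced from the class group characters `ψ` of
`K_D` with `ψ^2 ≠ 1`, and `L(s, Ind ψ) = L(s, ψ)`. The numbers of real and of all class group
characters are compared with the help of the split primes of small norm. For the class group
characters Cauchy's inequality is applied for fixed `D` to the sum over the characters, which is a
sum over the ideal classes of squares of mollified Epstein zeta functions, and then to the sum over
`D`. The mollifier is a sum of the Hecke operators `T_m` on the functions of binary quadratic forms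
of discriminant `-D`. By positivity the sum over the classes is at most the sum over all classes of
positive forms, primitive or not, over an enlarged family of discriminants; this sum unfolds to a
sum over `B` modulo `2A` with `4A ∣ B^2 + D`, so that the average over `D` becomes an average over
pairs `(B, C)` of integers, and the central value of the Epstein zeta function is averaged over `B`
by Poisson's summation formula. The mollifier may have the length `X^θ`, `θ < 1/4`, and the mollified
moments are those of a family of symplectic type: the proportion is `1 - (1 + 2θ)^(-3)`.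

Lean proof: helper31 (Pool/Agent/H31/CN) with modules by helper1, helper3, helper6, helper16,
helper19, helper20, helper22, helper25, helper26, helper33, helper34, helper37, helper38, helper39,
helper42, helper45, helper46, helper49, helper50, helper51, helper56, helper60, helper63, helper66,
helper69, helper77, helper86, helper95, helper96, helper99 (Pool/Agent/H<n>/CN), helper37 and his
team (Pool/Agent/H37/CA: Galois groups, induced characters, Euler factors at the ramified primes),
helper28 and helper95 (Pool/Agent/H28/RC), helper95 (Pool/Agent/H95/CG: class group `L`-functions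
are entire).
-/

set_option autoImplicit false

open NumberField

namespace Pool.Agent.Results.MP_347b49_nt.OrthogonalCharacters

open Pool.Agent.H28.RC Pool.Agent.H37.CA

/-- the squarefree numbers `D ≡ 3 mod 4` with `3 < D ≤ X`: the numbers `-D` are the odd
fundamental discriminants -/
noncomputable def Ds (X : ℝ) : Finset ℕ :=
  (Finset.Icc 1 ⌊X⌋₊).filter (fun D => 3 < D ∧ D % 4 = 3 ∧ Squarefree D)

/-- `L` is the Hilbert class field of the imaginary quadratic field `K`: the Artin map `θ`, which
sends a prime ideal to its Frobenius element, gives an isomorphism of the class group of `K` to the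
Galois group of `L/K`. -/
def IsHilbertClassField (K L : Type) [Field K] [NumberField K] [Field L] [NumberField L]
    [Algebra K L] : Prop :=
  ∃ θ : Ideal (𝓞 K) → (L ≃ₐ[K] L),
    (∀ I J : Ideal (𝓞 K), I ≠ ⊥ → J ≠ ⊥ → θ (I * J) = θ I * θ J) ∧
    (∀ (P : Ideal (𝓞 K)) (g : L ≃ₐ[K] L), Fro P g → g = θ P) ∧
    (∀ g : L ≃ₐ[K] L, ∃ I : Ideal (𝓞 K), I ≠ ⊥ ∧ θ I = g) ∧
    ∀ I : Ideal (𝓞 K), I ≠ ⊥ → (θ I = 1 ↔ ∃ a : 𝓞 K, I = Ideal.span {a})

/-- the orthogonal irreducible characters `f` of degree two of the Galois group of `L/ℚ` whose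
Artin `L`-function is entire and does not vanish at `1/2` -/
def Good (L : Type) [Field L] [NumberField L] [IsGalois ℚ L] : Set ((L ≃ₐ[ℚ] L) → ℂ) :=
  {f | f ∈ Irr (L ≃ₐ[ℚ] L) ∧ f 1 = 2 ∧ nu f = 1 ∧
    ∀ (F : Frb L) (V : Type) [AddCommGroup V] [Module ℂ V] [FiniteDimensional ℂ V]
      (ρ : Representation ℂ (L ≃ₐ[ℚ] L) V), f = ρ.character →
      ∃ Λ : ℂ → ℂ, Differentiable ℂ Λ ∧
        (∀ s : ℂ, 1 < s.re → HasProd (fun p => (F.rep V ρ).euler p s) (Λ s)) ∧ Λ (1 / 2) ≠ 0}

/-- For `D ∈ Ds X` let `K D` be a quadratic field of discriminant `-D` and `L D` its Hilbert class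
field. The mean value over `D` of the proportion of the characters in `Good (L D)` among all the
irreducible characters of the Galois group of `L D` over `ℚ` is at least `19/27 - ε` for all
large `X`. -/
theorem result : ∀ ε : ℝ, 0 < ε → ∃ X₀ : ℝ, ∀ X : ℝ, X₀ ≤ X →
    ∀ (K L : ℕ → Type) [∀ D, Field (K D)] [∀ D, NumberField (K D)] [∀ D, Field (L D)]
      [∀ D, NumberField (L D)] [∀ D, Algebra (K D) (L D)] [∀ D, IsGalois ℚ (L D)],
      (∀ D ∈ Ds X, Module.finrank ℚ (K D) = 2 ∧ discr (K D) = -(D : ℤ) ∧
        IsHilbertClassField (K D) (L D)) →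
      (∀ D ∈ Ds X, (Irr (L D ≃ₐ[ℚ] L D)).Finite) ∧
      (19 / 27 - ε) * (Ds X).card ≤
        ∑ D ∈ Ds X, ((Good (L D)).ncard : ℝ) / (Irr (L D ≃ₐ[ℚ] L D)).ncard := by
  intro ε hε
  obtain ⟨X₀, h⟩ := Pool.Agent.H31.CN.Fin.c_FR2 ε hε
  refine ⟨X₀, fun X hX K L _ _ _ _ _ _ hKL => ?_⟩
  refine h X hX K L (fun D hD => ⟨(hKL D hD).1, (hKL D hD).2.1, ?_⟩)
  obtain ⟨θ, h1, h2, h3, h4⟩ := (hKL D hD).2.2
  refine ⟨θ, fun I J hI hJ _ _ => h1 I J hI hJ, fun P g _ => h2 P g, fun g => ?_,
    fun I hI _ => ?_⟩
  · obtain ⟨I, hI, hg⟩ := h3 g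
    exact ⟨I, hI, sup_top_eq I, hg⟩
  · rw [h4 I hI]
    exact ⟨fun ⟨a, ha⟩ => ⟨a, trivial, ha⟩, fun ⟨a, _, ha⟩ => ⟨a, ha⟩⟩

end Pool.Agent.Results.MP_347b49_nt.OrthogonalCharacters
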